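import Pool.Agent.Helper97.UDP.Par

/-!
# The step polygon is simple (UDP-A1)
-/

set_option autoImplicit false

namespace Pool.Agent.Helper97.UDP

open Pool.Agent.Helper20.Flip

namespace StepSimple

theorem seg_coord {A B X : Pt} (h : X ∈ segment ℝ A B) :
    ∃ a b : ℝ, 0 ≤ a ∧ 0 ≤ b ∧ a + b = 1 ∧ X.1 = a * A.1 + b * B.1 ∧ X.2 = a * A.2 + b * B.2 := by
  obtain ⟨a, b, ha, hb, hab, rfl⟩ := h
  exact ⟨a, b, ha, hb, hab, rfl, rfl⟩

theorem mono {K : ℕ} {x : ℕ → ℝ} (hx : ∀ i < K, x i < x (i + 1)) :
    ∀ j ≤ K, ∀ i < j, x i < x j := by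
  intro j
  induction j with
  | zero => intro _ i hi; omega
  | succ j ih =>
    intro hj i hi
    have h1 := hx j (by omega)
    rcases Nat.lt_succ_iff_lt_or_eq.1 hi with h | h
    · exact (ih (by omega) i h).trans h1
    · rw [h]; exact h1

theorem le_of {K : ℕ} {x : ℕ → ℝ} (hx : ∀ i < K, x i < x (i + 1)) {i j : ℕ} (hi : i ≤ K)
    (h : x i ≤ x j) : i ≤ j := by
  by_contra hc
  push Not at hc
  have := mono hx i hi j hc
  linarith

theorem conv_ge {a b u v : ℝ} (hb : 0 ≤ b) (hab : a + b = 1) (h : u ≤ v) :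
    u ≤ a * u + b * v := by
  have ha : a = 1 - b := by linarith
  rw [ha]
  nlinarith [mul_nonneg hb (sub_nonneg.2 h)]

theorem conv_le {a b u v : ℝ} (ha : 0 ≤ a) (hab : a + b = 1) (h : u ≤ v) :
    a * u + b * v ≤ v := by
  have hb : b = 1 - a := by linarith
  rw [hb]
  nlinarith [mul_nonneg ha (sub_nonneg.2 h)]

theorem conv_pos {a b u v : ℝ} (ha : 0 ≤ a) (hb : 0 ≤ b) (hab : a + b = 1) (hu : 0 < u)
    (hv : 0 < v) : 0 < a * u + b * v := by
  rcases eq_or_lt_of_le ha with h | h
  · have : b = 1 := by linarith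
    rw [← h, this]
    linarith
  · have := mul_pos h hu
    have := mul_nonneg hb hv.le
    linarith

/-- the points of an edge -/
theorem edge_cases {K n : ℕ} {x h : ℕ → ℝ} {V : ZMod n → Pt} (hK : 1 ≤ K)
    (hV : StepVerts K x h V) (hx : ∀ i < K, x i < x (i + 1)) (hh : ∀ i < K, 0 < h i)
    (k : ℕ) (hk : k < 4 * K) (X : Pt) (hX : X ∈ segment ℝ (V (k : ℕ)) (V ((k + 1 : ℕ)))) :
    (k + 1 < 2 * K ∧ x ((k + 1) / 2) ≤ X.1 ∧ X.1 ≤ x ((k + 2) / 2) ∧ X.2 < 0 ∧
      (k % 2 = 0 → X.2 = -h (k / 2)) ∧ (k % 2 = 1 → X.1 = x ((k + 1) / 2))) ∨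
    (k + 1 = 2 * K ∧ X.1 = x K) ∨
    (∃ l, l < 2 * K ∧ 1 ≤ l ∧ k = 4 * K - 1 - l ∧ x (l / 2) ≤ X.1 ∧ X.1 ≤ x ((l + 1) / 2) ∧
      0 < X.2 ∧ (l % 2 = 1 → X.2 = h (l / 2)) ∧ (l % 2 = 0 → X.1 = x (l / 2))) ∨
    (k + 1 = 4 * K ∧ X.1 = x 0) := by
  obtain ⟨hn, hlo, hup⟩ := hV
  obtain ⟨a, b, ha, hb, hab, e1, e2⟩ := seg_coord hX
  rcases lt_trichotomy (k + 1) (2 * K) with hk1 | hk1 | hk1
  · left
    have A := hlo k (by omega)
    have B := hlo (k + 1) hk1
    rw [A, B] at e1 e2
    simp only at e1 e2
    have h1 := hh (k / 2) (by omega)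
    have h2 := hh ((k + 1) / 2) (by omega)
    have hm : x ((k + 1) / 2) ≤ x ((k + 2) / 2) := by
      rcases Nat.eq_or_lt_of_le (show (k + 1) / 2 ≤ (k + 2) / 2 by omega) with h | h
      · rw [h]
      · exact (mono hx _ (by omega) _ h).le
    have e3 : (k + 1 + 1) / 2 = (k + 2) / 2 := rfl
    rw [e3] at e1
    refine ⟨hk1, ?_, ?_, ?_, ?_, ?_⟩
    · rw [e1]
      exact conv_ge hb hab hm
    · rw [e1]
      exact conv_le ha hab hm
    · rw [e2]
      have := conv_pos ha hb hab h1 h2
      linarith
    · intro hp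
      have : (k + 1) / 2 = k / 2 := by omega
      rw [e2, this]
      have hb' : b = 1 - a := by linarith
      rw [hb']
      ring
    · intro hp
      have : (k + 2) / 2 = (k + 1) / 2 := by omega
      rw [e1, this]
      have hb' : b = 1 - a := by linarith
      rw [hb']
      ring
  · right; left
    have A := hlo k (by omega)
    have B := hup (2 * K - 1) (by omega)
    rw [show 4 * K - 1 - (2 * K - 1) = k + 1 by omega] at B
    rw [A, B] at e1
    simp only at e1
    rw [show (k + 1) / 2 = K by omega, show (2 * K - 1 + 1) / 2 = K by omega] at e1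
    refine ⟨hk1, ?_⟩
    rw [e1]
    have hb' : b = 1 - a := by linarith
    rw [hb']
    ring
  · right; right
    rcases Nat.lt_or_ge (k + 1) (4 * K) with hk2 | hk2
    · left
      obtain ⟨l, hl⟩ : ∃ l, l = 4 * K - 1 - k := ⟨_, rfl⟩
      have A := hup l (by omega)
      have B := hup (l - 1) (by omega)
      rw [show 4 * K - 1 - l = k by omega] at A
      rw [show 4 * K - 1 - (l - 1) = k + 1 by omega] at B
      rw [A, B] at e1 e2
      simp only at e1 e2
      rw [show (l - 1 + 1) / 2 = l / 2 by omega] at e1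
      have h1 := hh (l / 2) (by omega)
      have h2 := hh ((l - 1) / 2) (by omega)
      have hm : x (l / 2) ≤ x ((l + 1) / 2) := by
        rcases Nat.eq_or_lt_of_le (show l / 2 ≤ (l + 1) / 2 by omega) with h | h
        · rw [h]
        · exact (mono hx _ (by omega) _ h).le
      refine ⟨l, by omega, by omega, by omega, ?_, ?_, ?_, ?_, ?_⟩
      · rw [e1, add_comm]
        exact conv_ge ha (by linarith) hm
      · rw [e1, add_comm]
        exact conv_le hb (by linarith) hm
      · rw [e2]
        exact conv_pos ha hb hab h1 h2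
      · intro hp
        have : (l - 1) / 2 = l / 2 := by omega
        rw [e2, this]
        have hb' : b = 1 - a := by linarith
        rw [hb']
        ring
      · intro hp
        have : (l + 1) / 2 = l / 2 := by omega
        rw [e1, this]
        have hb' : b = 1 - a := by linarith
        rw [hb']
        ring
    · right
      have hk3 : k + 1 = 4 * K := by omega
      have A := hup 0 (by omega)
      have B := hlo 0 (by omega)
      rw [show 4 * K - 1 - 0 = k by omega] at A
      have hz : ((k + 1 : ℕ) : ZMod n) = ((0 : ℕ) : ZMod n) := by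
        rw [hk3, ← hn, ZMod.natCast_self]
        simp
      rw [hz, A, B] at e1
      simp only at e1
      refine ⟨hk3, ?_⟩
      rw [show (0 + 1) / 2 = 0 from rfl] at e1
      rw [e1]
      have hb' : b = 1 - a := by linarith
      rw [hb']
      ring

theorem main {K n : ℕ} {x h : ℕ → ℝ} {V : ZMod n → Pt} (hK : 1 ≤ K)
    (hV : StepVerts K x h V) (hx : ∀ i < K, x i < x (i + 1)) (hh : ∀ i < K, 0 < h i)
    (hne : ∀ i, i + 1 < K → h i ≠ h (i + 1)) (k l : ℕ) (hkl : k < l) (hl : l < 4 * K) (X : Pt)
    (h1 : X ∈ segment ℝ (V (k : ℕ)) (V ((k + 1 : ℕ))))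
    (h2 : X ∈ segment ℝ (V (l : ℕ)) (V ((l + 1 : ℕ)))) :
    (l = k + 1 ∧ X = V (l : ℕ)) ∨ (k = 0 ∧ l = 4 * K - 1 ∧ X = V (k : ℕ)) := by
  have c1 := edge_cases hK hV hx hh k (by omega) X h1
  have c2 := edge_cases hK hV hx hh l hl X h2
  obtain ⟨hn, hlo, hup⟩ := hV
  rcases c1 with ⟨a1, a2, a3, a4, a5, a6⟩ | ⟨a1, a2⟩ | ⟨k', a1, a2, a3, a4, a5, a6, a7, a8⟩ | ⟨a1, a2⟩
  · rcases c2 with ⟨b1, b2, b3, b4, b5, b6⟩ | ⟨b1, b2⟩ | ⟨l', b1, b2, b3, b4, b5, b6, b7, b8⟩ |
      ⟨b1, b2⟩
    · -- both lower
      have h3 : (l + 1) / 2 ≤ (k + 2) / 2 := le_of hx (by omega) (b2.trans a3)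
      left
      rcases Nat.eq_or_lt_of_le (show k + 1 ≤ l from hkl) with h4 | h4
      · refine ⟨h4.symm, ?_⟩
        rw [hlo l (by omega)]
        subst h4
        rcases Nat.mod_two_eq_zero_or_one k with hp | hp
        · have e1 := a5 hp
          have e2 := b6 (by omega)
          apply Prod.ext
          · exact e2
          · simp only
            rw [e1, show (k + 1) / 2 = k / 2 by omega]
        · have e1 := a6 hp
          have e2 := b5 (by omega)
          apply Prod.ext
          · simp only
            rw [e1, show (k + 1 + 1) / 2 = (k + 1) / 2 by omega]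
          · exact e2
      · exfalso
        have h5 : k % 2 = 0 := by omega
        have h6 : l = k + 2 := by omega
        have e1 := a5 h5
        have e2 := b5 (by omega)
        rw [h6, show (k + 2) / 2 = k / 2 + 1 by omega] at e2
        have h7 := hne (k / 2) (by omega)
        apply h7
        linarith
    · -- lower and right
      have h3 : K ≤ (k + 2) / 2 := le_of hx le_rfl (by rw [← b2]; exact a3)
      left
      have h4 : l = k + 1 := by omega
      refine ⟨h4, ?_⟩
      rw [hlo l (by omega)]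
      have e1 := a5 (by omega)
      apply Prod.ext
      · simp only
        rw [b2, show (l + 1) / 2 = K by omega]
      · simp only
        rw [e1, show l / 2 = k / 2 by omega]
    · linarith
    · -- lower and left
      have h3 : (k + 1) / 2 ≤ 0 := le_of hx (by omega) (by rw [← b2]; exact a2)
      right
      have h4 : k = 0 := by omega
      refine ⟨h4, by omega, ?_⟩
      rw [hlo k (by omega)]
      have e1 := a5 (by omega)
      apply Prod.ext
      · simp only
        rw [b2, h4]
      · exact e1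
  · rcases c2 with ⟨b1, b2, b3, b4, b5, b6⟩ | ⟨b1, b2⟩ | ⟨l', b1, b2, b3, b4, b5, b6, b7, b8⟩ |
      ⟨b1, b2⟩
    · omega
    · omega
    · -- right and upper
      have h3 : K ≤ (l' + 1) / 2 := le_of hx le_rfl (by rw [← a2]; exact b5)
      left
      have h4 : l' = 2 * K - 1 := by omega
      refine ⟨by omega, ?_⟩
      rw [b3, hup l' b1]
      have e1 := b7 (by omega)
      apply Prod.ext
      · simp only
        rw [a2, show (l' + 1) / 2 = K by omega]
      · exact e1
    · exfalso
      have := mono hx K le_rfl 0 (by omega)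
      linarith
  · rcases c2 with ⟨b1, b2, b3, b4, b5, b6⟩ | ⟨b1, b2⟩ | ⟨l', b1, b2, b3, b4, b5, b6, b7, b8⟩ |
      ⟨b1, b2⟩
    · omega
    · omega
    · -- both upper
      have h3 : k' / 2 ≤ (l' + 1) / 2 := le_of hx (by omega) (a4.trans b5)
      left
      have h4 : l' < k' := by omega
      rcases Nat.eq_or_lt_of_le (show l' + 1 ≤ k' from h4) with h5 | h5
      · refine ⟨by omega, ?_⟩
        rw [b3, hup l' b1]
        rcases Nat.mod_two_eq_zero_or_one l' with hp | hp
        · have e1 := b8 hp
          have e2 := a7 (by omega)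
          apply Prod.ext
          · simp only
            rw [e1, show (l' + 1) / 2 = l' / 2 by omega]
          · simp only
            rw [e2, show k' / 2 = l' / 2 by omega]
        · have e1 := b7 hp
          have e2 := a8 (by omega)
          apply Prod.ext
          · simp only
            rw [e2, show (l' + 1) / 2 = k' / 2 by omega]
          · exact e1
      · exfalso
        have h6 : l' % 2 = 1 := by omega
        have h7 : k' = l' + 2 := by omega
        have e1 := b7 h6
        have e2 := a7 (by omega)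
        rw [h7, show (l' + 2) / 2 = l' / 2 + 1 by omega] at e2
        have h8 := hne (l' / 2) (by omega)
        apply h8
        linarith
    · -- upper and left
      have h3 : k' / 2 ≤ 0 := le_of hx (by omega) (by rw [← b2]; exact a4)
      left
      have h4 : k' = 1 := by omega
      refine ⟨by omega, ?_⟩
      have A := hup 0 (by omega)
      rw [show 4 * K - 1 - 0 = l by omega] at A
      rw [A]
      have e1 := a7 (by omega)
      apply Prod.ext
      · simp only
        rw [b2]
      · simp only
        rw [e1, h4]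
  · omega

end StepSimple

open StepSimple in
/-- A1 -/
theorem step_isSimple {K n : ℕ} {x h : ℕ → ℝ} {V : ZMod n → Pt} (hK : 1 ≤ K)
    (hV : StepVerts K x h V) (hx : ∀ i < K, x i < x (i + 1)) (hh : ∀ i < K, 0 < h i)
    (hne : ∀ i, i + 1 < K → h i ≠ h (i + 1)) : IsSimple V := by
  have hn := hV.1
  haveI : NeZero n := ⟨by omega⟩
  have hval : ∀ i : ZMod n, ((i.val : ℕ) : ZMod n) = i := fun i => ZMod.natCast_zmod_val i
  have hlt : ∀ i : ZMod n, i.val < 4 * K := fun i => by
    have := ZMod.val_lt i
    omega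
  have hsucc : ∀ i : ZMod n, ((i.val + 1 : ℕ) : ZMod n) = i + 1 := by
    intro i
    push_cast
    rw [hval]
  have hlast : ∀ i : ZMod n, i.val = 4 * K - 1 → i + 1 = ((0 : ℕ) : ZMod n) := by
    intro i hi
    rw [← hsucc, hi, show 4 * K - 1 + 1 = n by omega, ZMod.natCast_self]
    simp
  refine ⟨by omega, ?_, ?_⟩
  · -- nondegenerate edges
    intro i hi0
    have hlti := hlt i
    obtain ⟨-, hlo, hup⟩ := hV
    have hi : V ((i.val : ℕ) : ZMod n) = V ((i.val + 1 : ℕ) : ZMod n) := by
      rw [hval, hsucc]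
      exact hi0
    generalize i.val = k at hi hlti
    rcases lt_trichotomy (k + 1) (2 * K) with h1 | h1 | h1
    · rw [hlo k (by omega), hlo (k + 1) h1, Prod.ext_iff] at hi
      simp only at hi
      rcases Nat.mod_two_eq_zero_or_one k with hp | hp
      · have h2 := hx (k / 2) (by omega)
        rw [show (k + 1) / 2 = k / 2 by omega, show (k + 1 + 1) / 2 = k / 2 + 1 by omega] at hi
        linarith [hi.1]
      · have h2 := hne (k / 2) (by omega)
        rw [show (k + 1) / 2 = k / 2 + 1 by omega] at hi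
        apply h2
        linarith [hi.2]
    · have B := hup (2 * K - 1) (by omega)
      rw [show 4 * K - 1 - (2 * K - 1) = k + 1 by omega] at B
      rw [hlo k (by omega), B, Prod.ext_iff] at hi
      simp only at hi
      have h2 := hh (k / 2) (by omega)
      rw [show (2 * K - 1) / 2 = k / 2 by omega] at hi
      linarith [hi.2]
    · rcases Nat.lt_or_ge (k + 1) (4 * K) with h2 | h2
      · obtain ⟨l, hl⟩ : ∃ l, l = 4 * K - 1 - k := ⟨_, rfl⟩
        have A := hup l (by omega)
        have B := hup (l - 1) (by omega)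
        rw [show 4 * K - 1 - l = k by omega] at A
        rw [show 4 * K - 1 - (l - 1) = k + 1 by omega] at B
        rw [A, B, Prod.ext_iff] at hi
        simp only at hi
        rcases Nat.mod_two_eq_zero_or_one l with hp | hp
        · have h3 := hne (l / 2 - 1) (by omega)
          rw [show (l - 1) / 2 = l / 2 - 1 by omega] at hi
          rw [show l / 2 - 1 + 1 = l / 2 by omega] at h3
          exact h3 hi.2.symm
        · have h3 := hx (l / 2) (by omega)
          rw [show (l + 1) / 2 = l / 2 + 1 by omega, show (l - 1 + 1) / 2 = l / 2 by omega] at hi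
          linarith [hi.1]
      · have A := hup 0 (by omega)
        have B := hlo 0 (by omega)
        rw [show 4 * K - 1 - 0 = k by omega] at A
        have hz : ((k + 1 : ℕ) : ZMod n) = ((0 : ℕ) : ZMod n) := by
          rw [show k + 1 = n by omega, ZMod.natCast_self]
          simp
        rw [hz, A, B, Prod.ext_iff] at hi
        simp only at hi
        have h3 := hh 0 (by omega)
        rw [show 0 / 2 = 0 by omega] at hi
        linarith [hi.2]
  · intro i j hij X h1 h2
    rw [← hsucc i] at h1
    rw [← hsucc j] at h2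
    have hne' : i.val ≠ j.val := fun h => hij (by rw [← hval i, ← hval j, h])
    rcases Nat.lt_or_gt_of_ne hne' with hlt' | hlt'
    · have h3 := main hK hV hx hh hne i.val j.val hlt' (hlt j) X
        (by rw [hval]; exact h1) (by rw [hval]; exact h2)
      rcases h3 with ⟨h4, h5⟩ | ⟨h4, h5, h6⟩
      · left
        rw [hval] at h5
        refine ⟨?_, h5⟩
        rw [← hsucc i, ← h4, hval]
      · right
        rw [hval] at h6
        refine ⟨?_, h6⟩
        rw [hlast j h5, ← h4, hval]
    · have h3 := main hK hV hx hh hne j.val i.val hlt' (hlt i) X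
        (by rw [hval]; exact h2) (by rw [hval]; exact h1)
      rcases h3 with ⟨h4, h5⟩ | ⟨h4, h5, h6⟩
      · right
        rw [hval] at h5
        refine ⟨?_, h5⟩
        rw [← hsucc j, ← h4, hval]
      · left
        rw [hval] at h6
        refine ⟨?_, h6⟩
        rw [hlast i h5, ← h4, hval]

end Pool.Agent.Helper97.UDP
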